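import Mathlib

/-!
# Branching random walk on `ℤ` in an inhomogeneous environment: definitions
(squad BRW, MP_02df95_pr)

Plan with complete proofs: `/team-store/PLAN_BRW.md`.
-/

set_option autoImplicit false

open MeasureTheory Set Filter ProbabilityTheory

namespace BRW

/-! ## The process

Genealogy: the individuals descending from one initial particle are labelled by finite binary words
`l : List Bool`; the children of `l` are `false :: l` and `true :: l`.  Each label carries a mark
`(e, r)`: `e` exponential with mean one, `r` uniform in `[0, 1]`, all independent.  An individual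
at `p` lives for the time `e / (1 + ξ p)` (exponential with rate `1 + ξ p`).  At the end of its life,
with probability `ξ p / (1 + ξ p)` it is replaced by two individuals at `p` and with probability
`(1/2) / (1 + ξ p)` each by one individual at `p + 1`, respectively at `p - 1`.  By the
properties of competing exponential clocks this is the branching random walk in which every particle
jumps with rate one to a uniformly chosen neighbour and splits into two with rate `ξ p`.
-/

/-- State of a label: position, time of birth, and whether the individual is realised. -/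
abbrev St : Type := ℤ × ℝ × Bool

/-- The child `c` of an individual with state `st` and mark `m`. -/
noncomputable def child (ξ : ℤ → ℝ) (st : St) (m : ℝ × ℝ) (c : Bool) : St :=
  if m.2 * (1 + ξ st.1) < ξ st.1 then (st.1, st.2.1 + m.1 / (1 + ξ st.1), st.2.2)
  else if m.2 * (1 + ξ st.1) < ξ st.1 + 1 / 2 then
    (st.1 + 1, st.2.1 + m.1 / (1 + ξ st.1), st.2.2 && !c)
  else (st.1 - 1, st.2.1 + m.1 / (1 + ξ st.1), st.2.2 && !c)

/-- The state of the label `l` in the tree with marks `ω` and initial individual `st`. -/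
noncomputable def node (ξ : ℤ → ℝ) (st : St) (ω : List Bool → ℝ × ℝ) : List Bool → St
  | [] => st
  | c :: l => child ξ (node ξ st ω l) (ω l) c

/-- The label `l` is alive at time `t`. -/
def IsAlive (ξ : ℤ → ℝ) (st : St) (ω : List Bool → ℝ × ℝ) (t : ℝ) (l : List Bool) : Prop :=
  (node ξ st ω l).2.2 = true ∧ (node ξ st ω l).2.1 ≤ t ∧
    t < (node ξ st ω l).2.1 + (ω l).1 / (1 + ξ (node ξ st ω l).1)

/-- The positions of the particles alive at time `t`, for the initial configuration `u0`; the
`i`-th initial particle at `z` has the tree `ω (z, i)`. -/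
def positions (ξ : ℤ → ℝ) (u0 : ℤ → ℕ) (ω : ℤ × ℕ → List Bool → ℝ × ℝ) (t : ℝ) : Set ℤ :=
  {p | ∃ (z : ℤ) (i : ℕ) (l : List Bool), i < u0 z ∧ IsAlive ξ (z, 0, true) (ω (z, i)) t l ∧
    (node ξ (z, 0, true) (ω (z, i)) l).1 = p}

/-- The position of the rightmost particle at time `t`. -/
noncomputable def maxPos (ξ : ℤ → ℝ) (u0 : ℤ → ℕ) (ω : ℤ × ℕ → List Bool → ℝ × ℝ) (t : ℝ) : ℤ :=
  sSup (positions ξ u0 ω t)

/-- The law of a mark. -/
noncomputable def markLaw : Measure (ℝ × ℝ) :=
  (expMeasure 1).prod (volume.restrict (Icc (0 : ℝ) 1))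

instance : IsProbabilityMeasure markLaw := by
  have h1 : IsProbabilityMeasure (expMeasure 1) := isProbabilityMeasure_expMeasure one_pos
  have h2 : IsProbabilityMeasure (volume.restrict (Icc (0 : ℝ) 1)) := ⟨by simp⟩
  unfold markLaw
  infer_instance

/-- The law of the marks of one tree. -/
noncomputable def treeLaw : Measure (List Bool → ℝ × ℝ) :=
  Measure.infinitePi (fun _ => markLaw)

instance : IsProbabilityMeasure treeLaw := by
  unfold treeLaw
  infer_instance

/-- The law of the marks of all trees: the quenched law. -/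
noncomputable def law : Measure (ℤ × ℕ → List Bool → ℝ × ℝ) :=
  Measure.infinitePi (fun _ => treeLaw)

instance : IsProbabilityMeasure law := by
  unfold law
  infer_instance

/-- The set of `x` such that the rightmost particle is at `x` or to the right of `x` with
probability at least one half. -/
def medSet (ξ : ℤ → ℝ) (u0 : ℤ → ℕ) (t : ℝ) : Set ℤ :=
  {x : ℤ | 1 / 2 ≤ law {ω | x ≤ maxPos ξ u0 ω t}}

/-- The quenched median of the position of the rightmost particle at time `t`. -/
noncomputable def med (ξ : ℤ → ℝ) (u0 : ℤ → ℕ) (t : ℝ) : ℤ := sSup (medSet ξ u0 t)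

/-- Initial configurations `1_{0} ≤ u0 ≤ C 1_{-ℕ}`. -/
def IC (C : ℕ) (u0 : ℤ → ℕ) : Prop := 1 ≤ u0 0 ∧ (∀ z, u0 z ≤ C) ∧ ∀ z, 0 < z → u0 z = 0

/-- Tightness of the recentred maximum (together with the facts which make `maxPos` and `med`
meaningful: at every time there almost surely is a rightmost particle, and the median is
a maximum). -/
def Tight (ξ : ℤ → ℝ) (u0 : ℤ → ℕ) : Prop :=
  (∀ t : ℝ, 0 ≤ t → ∀ᵐ ω ∂law, (positions ξ u0 ω t).Nonempty ∧ BddAbove (positions ξ u0 ω t)) ∧
  (∀ t : ℝ, 0 ≤ t → (medSet ξ u0 t).Nonempty ∧ BddAbove (medSet ξ u0 t)) ∧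
  ∀ ε : ENNReal, 0 < ε → ∃ K : ℤ, ∀ t : ℝ, 0 ≤ t →
    law {ω | K < |maxPos ξ u0 ω t - med ξ u0 t|} ≤ ε

/-! ## The analytic side -/

/-- bounded environments -/
def Env (a b : ℝ) (ξ : ℤ → ℝ) : Prop := 0 < a ∧ ∀ x, a ≤ ξ x ∧ ξ x ≤ b

/-- the discrete Laplacian, generator of simple random walk with jump rate one -/
noncomputable def lap (u : ℤ → ℝ) (x : ℤ) : ℝ := (u (x + 1) + u (x - 1)) / 2 - u x

/-- indicator of `[y, ∞)` -/
noncomputable def ind (y x : ℤ) : ℝ := if y ≤ x then 1 else 0

/-- Solutions with values in `[0, 1]` of the F-KPP equation on the set `A` of active sites; outside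
`A` the function is constant in time. -/
structure IsSol (ξ : ℤ → ℝ) (A : Set ℤ) (f : ℤ → ℝ) (u : ℝ → ℤ → ℝ) : Prop where
  nonneg : ∀ t x, 0 ≤ t → 0 ≤ u t x
  le_one : ∀ t x, 0 ≤ t → u t x ≤ 1
  init : ∀ x, u 0 x = f x
  stat : ∀ t x, 0 ≤ t → x ∉ A → u t x = f x
  deriv : ∀ t x, 0 ≤ t → x ∈ A →
    HasDerivWithinAt (fun s => u s x) (lap (u t) x + ξ x * (u t x * (1 - u t x))) (Ici 0) t

/-- `w t x` is the probability that the walk started with one particle at `x` has a particle in
`[y, ∞)` at time `t`. -/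
def IsW (ξ : ℤ → ℝ) (y : ℤ) (w : ℝ → ℤ → ℝ) : Prop := IsSol ξ univ (ind y) w

/-- `v t x` is the probability that the walk started with one particle at `x` has hit `[y, ∞)` before
time `t`. -/
def IsV (ξ : ℤ → ℝ) (y : ℤ) (v : ℝ → ℤ → ℝ) : Prop := IsSol ξ (Iio y) (ind y) v

/-- `h t x` is the mean number of first hits of `y` before time `t`, for the walk started with one
particle at `x < y`: the linear equation. The last field controls the number of jumps. -/
structure IsLin (ξ : ℤ → ℝ) (b : ℝ) (y : ℤ) (h : ℝ → ℤ → ℝ) : Prop where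
  nonneg : ∀ t x, 0 ≤ t → 0 ≤ h t x
  bdd : ∀ T, ∃ B, ∀ t x, 0 ≤ t → t ≤ T → h t x ≤ B
  init : ∀ x, x < y → h 0 x = 0
  bdry : ∀ t x, 0 ≤ t → y ≤ x → h t x = 1
  deriv : ∀ t x, 0 ≤ t → x < y →
    HasDerivWithinAt (fun s => h s x) (lap (h t) x + ξ x * h t x) (Ici 0) t
  grow : ∀ (N : ℕ) (A θ t : ℝ) (x : ℤ), 1 ≤ A → 0 < θ → θ ≤ 1 → 0 ≤ t → x < y →
    θ ^ N * Real.exp (-(b * (1 - θ) * t)) * (h t x - Real.exp ((b + A) * t) / A ^ N) ≤ h (θ * t) x

/-- Picard iteration for `IsSol`; for `A = univ` this is the probability that some label of length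
less than `n` is alive at time `t` and located in the set with indicator `f`. -/
noncomputable def iter (ξ : ℤ → ℝ) (A : Set ℤ) (f : ℤ → ℝ) : ℕ → ℝ → ℤ → ℝ
  | 0 => fun _ _ => 0
  | n + 1 => fun t x => by
      classical
      exact if x ∈ A then Real.exp (-((1 + ξ x) * t)) * f x +
        ∫ s in (0 : ℝ)..t, Real.exp (-((1 + ξ x) * (t - s))) *
          ((iter ξ A f n s (x + 1) + iter ξ A f n s (x - 1)) / 2 +
            ξ x * (2 * iter ξ A f n s x - iter ξ A f n s x ^ 2))
        else f x

/-- The part of the linear solution which comes from paths with exactly `n` jumps. -/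
noncomputable def hn (ξ : ℤ → ℝ) (y : ℤ) : ℕ → ℝ → ℤ → ℝ
  | 0 => fun _ x => if y ≤ x then 1 else 0
  | n + 1 => fun t x => if y ≤ x then 0 else
      ∫ s in (0 : ℝ)..t, Real.exp (-((1 - ξ x) * (t - s))) *
        ((hn ξ y n s (x + 1) + hn ξ y n s (x - 1)) / 2)

/-- The event that some label of length less than `n` of the tree started at `z` is alive at time
`t` and located in `[y, ∞)`. -/
def Ev (ξ : ℤ → ℝ) (y : ℤ) (n : ℕ) (t : ℝ) (z : ℤ) (ω : List Bool → ℝ × ℝ) : Prop :=
  ∃ l : List Bool, l.length < n ∧ IsAlive ξ (z, 0, true) ω t l ∧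
    y ≤ (node ξ (z, 0, true) ω l).1

/-- The probability that none of the independent events `E (z, i)`, `i < u0 z`, of probability `f z`
occurs. -/
noncomputable def noHit (u0 : ℤ → ℕ) (f : ℤ → ℝ) : ℝ :=
  ⨅ F : Finset ℤ, ∏ z ∈ F, (1 - f z) ^ (u0 z)

end BRW
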