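import Pool.Agent.Helper8_BRW.Stmts

/-!
# Squad BRW: the final assembly
-/

set_option autoImplicit false

open MeasureTheory Set Filter

namespace BRW.H8

/-- the event that there is a particle in `[y, ∞)` at time `t` -/
def Q (ξ : ℤ → ℝ) (u0 : ℤ → ℕ) (y : ℤ) (t : ℝ) : Set (ℤ × ℕ → List Bool → ℝ × ℝ) :=
  {ω | ∃ p ∈ positions ξ u0 ω t, y ≤ p}

/-- the corresponding event for one tree -/
def Et (ξ : ℤ → ℝ) (y : ℤ) (t : ℝ) (z : ℤ) : Set (List Bool → ℝ × ℝ) :=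
  {ω | ∃ l : List Bool, IsAlive ξ (z, 0, true) ω t l ∧ y ≤ (node ξ (z, 0, true) ω l).1}

theorem Q_compl (ξ : ℤ → ℝ) (u0 : ℤ → ℕ) (y : ℤ) (t : ℝ) :
    (Q ξ u0 y t)ᶜ = {ω | ∀ (z : ℤ) (i : ℕ), i < u0 z → ω (z, i) ∉ Et ξ y t z} := by
  ext ω
  constructor
  · rintro h z i hi ⟨l, hl, hy⟩
    exact h ⟨_, ⟨z, i, l, hi, hl, rfl⟩, hy⟩
  · rintro h ⟨p, ⟨z, i, l, hi, hl, rfl⟩, hy⟩
    exact h z i hi ⟨l, hl, hy⟩

theorem measurable_Q {ξ : ℤ → ℝ} (u0 : ℤ → ℕ) {y : ℤ} {t : ℝ}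
    (h : ∀ z, MeasurableSet (Et ξ y t z)) : MeasurableSet (Q ξ u0 y t) := by
  rw [← MeasurableSet.compl_iff, Q_compl]
  have : {ω : ℤ × ℕ → List Bool → ℝ × ℝ | ∀ (z : ℤ) (i : ℕ), i < u0 z → ω (z, i) ∉ Et ξ y t z} =
      ⋂ (z : ℤ), ⋂ (i : ℕ), ⋂ (_ : i < u0 z), (fun ω => ω (z, i)) ⁻¹' (Et ξ y t z)ᶜ := by
    ext ω
    simp
  rw [this]
  exact MeasurableSet.iInter fun z => MeasurableSet.iInter fun i => MeasurableSet.iInter fun _ =>
    (measurable_pi_apply (z, i)) (h z).compl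

theorem noHit_nonneg (u0 : ℤ → ℕ) (f : ℤ → ℝ) (hf : ∀ z, f z ≤ 1) : 0 ≤ noHit u0 f := by
  unfold noHit
  exact Real.iInf_nonneg fun F => Finset.prod_nonneg fun z _ => pow_nonneg (by linarith [hf z]) _

theorem noHit_le_one (u0 : ℤ → ℕ) (f : ℤ → ℝ) (hf : ∀ z, f z ≤ 1) : noHit u0 f ≤ 1 := by
  unfold noHit
  refine (ciInf_le ⟨0, ?_⟩ ∅).trans (by simp)
  rintro _ ⟨F, rfl⟩
  exact Finset.prod_nonneg fun z _ => pow_nonneg (by linarith [hf z]) _

/-- (FIN) -/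
theorem fin (h2 : Proc2Stmt) (hp : PrdStmt) (hT : TLSStmt) (hA : TAStmt) : FinStmt := by
  intro a b ξ hE C u0 hIC
  have ha : 0 < a := hE.1
  have hb : 0 < b := lt_of_lt_of_le ha ((hE.2 0).1.trans (hE.2 0).2)
  choose w hw hl using h2 a b ξ hE
  -- the law of `Q`
  have hQm : ∀ y t, 0 ≤ t → MeasurableSet (Q ξ u0 y t) := fun y t ht =>
    measurable_Q u0 fun z => (hl y z t ht).1
  have hle : ∀ y t, 0 ≤ t → ∀ z, w y t z ≤ 1 := fun y t ht z => (hw y).le_one t z ht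
  have hQc : ∀ y t, 0 ≤ t → law (Q ξ u0 y t)ᶜ = ENNReal.ofReal (noHit u0 (w y t)) := by
    intro y t ht
    rw [Q_compl]
    exact hp u0 (Et ξ y t) (w y t) (fun z => (hl y z t ht).1)
      (fun z => ⟨(hw y).nonneg t z ht, (hw y).le_one t z ht⟩) (fun z => (hl y z t ht).2)
  have hQ : ∀ y t, 0 ≤ t → law (Q ξ u0 y t) = ENNReal.ofReal (1 - noHit u0 (w y t)) := by
    intro y t ht
    have h1 := prob_compl_eq_one_sub (μ := law) (hQm y t ht).compl
    rw [compl_compl, hQc y t ht] at h1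
    rw [h1, ENNReal.ofReal_sub _ (noHit_nonneg u0 _ (hle y t ht)), ENNReal.ofReal_one]
  -- almost surely there is a rightmost particle
  have hgood : ∀ t : ℝ, 0 ≤ t →
      ∀ᵐ ω ∂law, (positions ξ u0 ω t).Nonempty ∧ BddAbove (positions ξ u0 ω t) := by
    intro t ht
    rw [ae_iff]
    have key : ∀ ε : ℝ, 0 < ε → law {ω | ¬ ((positions ξ u0 ω t).Nonempty ∧
        BddAbove (positions ξ u0 ω t))} ≤ ENNReal.ofReal ε := by
      intro ε hε
      obtain ⟨y1, y2, h1, h2⟩ := hT a b C ξ hE u0 hIC w hw t (ε / 2) ht (by linarith)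
      have hsub : {ω | ¬ ((positions ξ u0 ω t).Nonempty ∧ BddAbove (positions ξ u0 ω t))} ⊆
          (Q ξ u0 y1 t)ᶜ ∪ Q ξ u0 y2 t := by
        intro ω hω
        by_contra hcon
        simp only [mem_union, mem_compl_iff, not_or, not_not] at hcon
        obtain ⟨hc1, hc2⟩ := hcon
        apply hω
        obtain ⟨p, hp1, -⟩ := hc1
        refine ⟨⟨p, hp1⟩, ⟨y2, ?_⟩⟩
        intro q hq
        by_contra hlt
        exact hc2 ⟨q, hq, by omega⟩
      calc law _ ≤ law ((Q ξ u0 y1 t)ᶜ ∪ Q ξ u0 y2 t) := measure_mono hsub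
        _ ≤ law (Q ξ u0 y1 t)ᶜ + law (Q ξ u0 y2 t) := measure_union_le _ _
        _ ≤ ENNReal.ofReal (ε / 2) + ENNReal.ofReal (ε / 2) := by
          rw [hQc y1 t ht, hQ y2 t ht]
          exact add_le_add (ENNReal.ofReal_le_ofReal h1)
            (ENNReal.ofReal_le_ofReal (by linarith))
        _ = ENNReal.ofReal ε := by
          rw [← ENNReal.ofReal_add (by linarith) (by linarith)]
          congr 1
          ring
    have h0 : law {ω | ¬ ((positions ξ u0 ω t).Nonempty ∧ BddAbove (positions ξ u0 ω t))} ≤ 0 := by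
      apply ENNReal.le_of_forall_pos_le_add
      intro ε hε _
      rw [zero_add]
      calc law _ ≤ ENNReal.ofReal ε := key ε hε
        _ = ε := ENNReal.ofReal_coe_nnreal
    exact le_antisymm h0 bot_le
  -- the events `x ≤ maxPos`
  have hmaxQ : ∀ x t, 0 ≤ t → law {ω | x ≤ maxPos ξ u0 ω t} = law (Q ξ u0 x t) := by
    intro x t ht
    apply measure_congr
    filter_upwards [hgood t ht] with ω hω
    apply propext
    change x ≤ maxPos ξ u0 ω t ↔ ∃ p ∈ positions ξ u0 ω t, x ≤ p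
    constructor
    · intro h
      exact ⟨_, Int.csSup_mem hω.1 hω.2, h⟩
    · rintro ⟨p, hp1, hp2⟩
      exact hp2.trans (le_csSup hω.2 hp1)
  have hmed : ∀ x t, 0 ≤ t → (x ∈ medSet ξ u0 t ↔ noHit u0 (w x t) ≤ 1 / 2) := by
    intro x t ht
    change 1 / 2 ≤ law {ω | x ≤ maxPos ξ u0 ω t} ↔ _
    rw [hmaxQ x t ht, hQ x t ht]
    have h12 : (1 / 2 : ENNReal) = ENNReal.ofReal (1 / 2) := by
      rw [ENNReal.ofReal_div_of_pos (by norm_num)]
      simp
    rw [h12, ENNReal.ofReal_le_ofReal_iff (by linarith [noHit_le_one u0 _ (hle x t ht)])]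
    constructor <;> intro h <;> linarith
  have hanti : ∀ x y t, 0 ≤ t → x ≤ y → noHit u0 (w x t) ≤ noHit u0 (w y t) := by
    intro x y t ht hxy
    have h1 : law (Q ξ u0 x t)ᶜ ≤ law (Q ξ u0 y t)ᶜ := by
      apply measure_mono
      intro ω hω hcon
      apply hω
      obtain ⟨p, hp1, hp2⟩ := hcon
      exact ⟨p, hp1, hxy.trans hp2⟩
    rw [hQc x t ht, hQc y t ht,
      ENNReal.ofReal_le_ofReal_iff (noHit_nonneg u0 _ (hle y t ht))] at h1
    exact h1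
  have hmedne : ∀ t : ℝ, 0 ≤ t → (medSet ξ u0 t).Nonempty ∧ BddAbove (medSet ξ u0 t) := by
    intro t ht
    constructor
    · obtain ⟨y1, y2, h1, h2⟩ := hT a b C ξ hE u0 hIC w hw t (1 / 2) ht (by norm_num)
      exact ⟨y1, (hmed y1 t ht).2 h1⟩
    · obtain ⟨y1, y2, h1, h2⟩ := hT a b C ξ hE u0 hIC w hw t (1 / 4) ht (by norm_num)
      refine ⟨y2, ?_⟩
      intro x hx
      by_contra hlt
      have h3 := (hmed x t ht).1 hx
      have h4 := hanti y2 x t ht (by omega)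
      linarith
  refine ⟨hgood, hmedne, ?_⟩
  intro ε hε
  -- a real number below `ε / 2`
  obtain ⟨δ, hδ0, hδ1, hδ⟩ : ∃ δ : ℝ, 0 < δ ∧ δ < 1 / 2 ∧ ENNReal.ofReal (2 * δ) ≤ ε := by
    rcases eq_or_ne ε ⊤ with h | h
    · exact ⟨1 / 4, by norm_num, by norm_num, by rw [h]; exact le_top⟩
    · have hε' : 0 < ε.toReal := ENNReal.toReal_pos hε.ne' h
      refine ⟨min (1 / 4) (ε.toReal / 2), lt_min (by norm_num) (by linarith),
        lt_of_le_of_lt (min_le_left _ _) (by norm_num), ?_⟩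
      calc ENNReal.ofReal (2 * min (1 / 4) (ε.toReal / 2)) ≤ ENNReal.ofReal ε.toReal := by
            apply ENNReal.ofReal_le_ofReal
            have := min_le_right (1 / 4) (ε.toReal / 2)
            linarith
        _ = ε := ENNReal.ofReal_toReal h
  obtain ⟨K, hK, hKA⟩ := hA a b δ C ha hb hδ0 (by linarith)
  refine ⟨K, ?_⟩
  intro t ht
  obtain ⟨A, hA1, hA2⟩ := hKA ξ hE u0 hIC w hw t ht
  have hAmed : A ≤ med ξ u0 t :=
    le_csSup (hmedne t ht).2 ((hmed A t ht).2 (by linarith))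
  have hmedA : med ξ u0 t < A + K := by
    have hm : med ξ u0 t ∈ medSet ξ u0 t := Int.csSup_mem (hmedne t ht).1 (hmedne t ht).2
    by_contra hcon
    have h3 := (hmed _ t ht).1 hm
    have h4 := hanti (A + K) (med ξ u0 t) t ht (by omega)
    linarith
  have hae : {ω | K < |maxPos ξ u0 ω t - med ξ u0 t|} ≤ᵐ[law]
      ((Q ξ u0 A t)ᶜ ∪ Q ξ u0 (A + K) t : Set _) := by
    filter_upwards [hgood t ht] with ω hω
    intro hlt
    change ω ∈ (Q ξ u0 A t)ᶜ ∪ Q ξ u0 (A + K) t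
    by_contra hcon
    simp only [mem_union, mem_compl_iff, not_or, not_not] at hcon
    obtain ⟨⟨p, hp1, hp2⟩, hc2⟩ := hcon
    have h5 : A ≤ maxPos ξ u0 ω t := hp2.trans (le_csSup hω.2 hp1)
    have h6 : maxPos ξ u0 ω t < A + K := by
      by_contra hge
      exact hc2 ⟨_, Int.csSup_mem hω.1 hω.2, not_lt.1 hge⟩
    have h7 : |maxPos ξ u0 ω t - med ξ u0 t| < K := by
      rw [abs_lt]
      constructor <;> omega
    have h8 : K < |maxPos ξ u0 ω t - med ξ u0 t| := hlt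
    omega
  calc law {ω | K < |maxPos ξ u0 ω t - med ξ u0 t|}
      ≤ law ((Q ξ u0 A t)ᶜ ∪ Q ξ u0 (A + K) t) := measure_mono_ae hae
    _ ≤ law (Q ξ u0 A t)ᶜ + law (Q ξ u0 (A + K) t) := measure_union_le _ _
    _ ≤ ENNReal.ofReal δ + ENNReal.ofReal δ := by
      rw [hQc A t ht, hQ (A + K) t ht]
      exact add_le_add (ENNReal.ofReal_le_ofReal hA1)
        (ENNReal.ofReal_le_ofReal (by linarith))
    _ = ENNReal.ofReal (2 * δ) := by
      rw [← ENNReal.ofReal_add hδ0.le hδ0.le]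
      congr 1
      ring
    _ ≤ ε := hδ

end BRW.H8
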