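import Pool.Agent.Helper8_BRW.Fin
import Pool.Agent.Helper33_BRW.GAP
import Pool.Agent.Helper47_BRW.C3
import Pool.Agent.Helper47_BRW.G0
import Pool.Agent.Helper47_BRW.Prd
import Pool.Agent.Helper48_BRW.Cru
import Pool.Agent.Helper48_BRW.Hn
import Pool.Agent.Helper13_BRW.Exl
import Pool.Agent.Helper18_BRW.Exn
import Pool.Agent.Helper18_BRW.MaxP
import Pool.Agent.Helper84_BRW.F7
import Pool.Agent.Helper84_BRW.G2b
import Pool.Agent.Helper32_BRW.G2
import Pool.Agent.Helper32_BRW.Half
import Pool.Agent.Helper32_BRW.Sq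
import Pool.Agent.Helper51_BRW.H3
import Pool.Agent.Helper51_BRW.Ubd
import Pool.Agent.Helper75_BRW.Proc
import Pool.Agent.Helper75_BRW.Strip
import Pool.Agent.Helper42_BRW.Scl
import Pool.Agent.Helper9_BRW.Cmp
import Pool.Agent.Helper9_BRW.Low
import Pool.Agent.Helper27_BRW.PA
import Pool.Agent.Helper27_BRW.PM
import Pool.Agent.Helper63_BRW.Pb
import Pool.Agent.Helper63_BRW.Tls
import Pool.Agent.Helper81_BRW.TA

/-!
# Squad BRW: all modules together
-/

set_option autoImplicit false

namespace BRW.H8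

theorem max' : MaxStmt := H18.maxP
theorem exn' : EXNStmt := H18.exn
theorem exl' : EXLStmt := H13.exl H48.hnStmt
theorem cru' : CRUStmt := H48.cru max'
theorem scl2' : SCL2Stmt := H42.scl2 (H42.scl max' cru')
theorem g2b' : G2BStmt := H84.g2b max'
theorem g0' : G0Stmt := H47.g0 max'
theorem g1' : G1Stmt := H33.g1 g0'
theorem g2' : G2Stmt := H32.g2 g0' g2b'
theorem half' : HalfStmt := H32.half max' g2'
theorem amp' : AmpStmt := H33.amp g1' g2' half'
theorem ubd' : UBDStmt := H51.ubd max' cru' scl2'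
theorem low' : LOWStmt := H9.low
theorem cmp' : CMPStmt := H9.cmp max'
theorem sq' : SQStmt := H32.sq cru' low'
theorem f7' : F7Stmt := H84F.f7 max' sq' scl2'
theorem h3' : H3Stmt := H51.h3 low'
theorem strip' : StripStmt := H75.strip cru' low' ubd' h3' f7' exl'
theorem c3' : C3Stmt := H47.c3 max' strip'
theorem tls' : TLSStmt := H63.tls cru'
theorem proc2' : Proc2Stmt := H33.proc2 (H75.proc H27.pm H27.pa H63.pb) exn'
theorem ta' : TAStmt := H81.ta amp' c3' g2' cru' cmp' exn' tls'
theorem main : FinStmt := fin proc2' H47.prd tls' ta'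

end BRW.H8
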