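import Pool.Agent.Helper8_BRW.Defs

/-!
# Squad BRW (MP_02df95_pr): the statements of the modules

Plan with complete proofs: `/team-store/PLAN_BRW.md`.
-/

set_option autoImplicit false

open MeasureTheory Set Filter

namespace BRW

/-! ## General tools -/

/-- (MAX) maximum principle.  In column `x` the function `δ` is `≤ 0` up to time `s x`, and continuous
afterwards; where it is positive its right derivative is at most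
`(δ⁺(t,x+1) + δ⁺(t,x-1))/2 + C δ(t,x)`. -/
def MaxStmt : Prop := ∀ (δ : ℝ → ℤ → ℝ) (T C B : ℝ) (s : ℤ → ℝ), 0 ≤ C → (∀ x, 0 ≤ s x) →
  (∀ t x, 0 ≤ t → t ≤ T → δ t x ≤ B) →
  (∀ t x, 0 ≤ t → t ≤ T → t ≤ s x → δ t x ≤ 0) →
  (∀ x, ContinuousOn (fun t => δ t x) (Icc (s x) T)) →
  (∀ t x, s x ≤ t → t < T → 0 < δ t x → ∃ d, HasDerivWithinAt (fun r => δ r x) d (Ici t) t ∧
    d ≤ (max (δ t (x + 1)) 0 + max (δ t (x - 1)) 0) / 2 + C * δ t x) →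
  ∀ t x, 0 ≤ t → t ≤ T → δ t x ≤ 0

/-- (EXN) existence of solutions of the nonlinear equation, as limit of the iteration. -/
def EXNStmt : Prop := ∀ (a b : ℝ) (ξ : ℤ → ℝ), Env a b ξ → ∀ (A : Set ℤ) (f : ℤ → ℝ),
  (∀ x, 0 ≤ f x ∧ f x ≤ 1) → ∃ u : ℝ → ℤ → ℝ, IsSol ξ A f u ∧
    ∀ t x, 0 ≤ t → Monotone (fun n => iter ξ A f n t x) ∧
      Tendsto (fun n => iter ξ A f n t x) atTop (nhds (u t x))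

/-- (HN) properties of the functions `hn`. -/
def HNStmt : Prop := ∀ (a b : ℝ) (ξ : ℤ → ℝ), Env a b ξ → ∀ (y : ℤ) (n : ℕ),
  (∀ x, ContinuousOn (fun t => hn ξ y n t x) (Ici 0)) ∧
  (∀ t x, 0 ≤ t → 0 ≤ hn ξ y n t x) ∧
  (∀ t x, 0 ≤ t → hn ξ y n t x ≤ Real.exp (b * t) * t ^ n / n.factorial) ∧
  (∀ θ t x, 0 < θ → θ ≤ 1 → 0 ≤ t →
    θ ^ n * Real.exp (-(b * (1 - θ) * t)) * hn ξ y n t x ≤ hn ξ y n (θ * t) x) ∧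
  (∀ t x, 0 ≤ t → x < y → HasDerivWithinAt (fun s => hn ξ y (n + 1) s x)
    ((hn ξ y n t (x + 1) + hn ξ y n t (x - 1)) / 2 - (1 - ξ x) * hn ξ y (n + 1) t x) (Ici 0) t)

/-- (EXL) existence of the linear solution. -/
def EXLStmt : Prop := ∀ (a b : ℝ) (ξ : ℤ → ℝ), Env a b ξ → ∀ y : ℤ, ∃ h, IsLin ξ b y h

/-! ## Elementary bounds -/

/-- (CRU) crude upper bounds with exponentials. -/
def CRUStmt : Prop := ∀ (a b : ℝ) (ξ : ℤ → ℝ), Env a b ξ → ∀ (y : ℤ) (r : ℝ), 1 ≤ r →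
  (∀ w, IsW ξ y w → ∀ t x, 0 ≤ t → w t x ≤ Real.exp ((b + r / 2) * t) * r ^ (x - y)) ∧
  (∀ v, IsV ξ y v → ∀ t x, 0 ≤ t → v t x ≤ Real.exp ((b + r / 2) * t) * r ^ (x - y)) ∧
  (∀ h, IsLin ξ b y h → ∀ t x, 0 ≤ t → h t x ≤ Real.exp ((b + r / 2) * t) * r ^ (x - y)) ∧
  (∀ w, IsW ξ y w → ∀ t x, 0 ≤ t → 1 - w t x ≤ Real.exp (r / 2 * t) * r ^ (y - x))

/-- (LOW) crude lower bounds: paths which only jump to the right. -/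
def LOWStmt : Prop := ∀ (a b : ℝ) (ξ : ℤ → ℝ), Env a b ξ → ∀ (y : ℤ),
  (∀ v, IsV ξ y v → ∀ (t : ℝ) (n : ℕ), 0 ≤ t →
    Real.exp (-t) * (t / 2) ^ n / n.factorial ≤ v t (y - n)) ∧
  (∀ h, IsLin ξ b y h → ∀ (t : ℝ) (n : ℕ), 0 ≤ t →
    Real.exp (-t) * (t / 2) ^ n / n.factorial ≤ h t (y - n))

/-- (CMP) simple comparisons: `w ≤ v ≤ h`. -/
def CMPStmt : Prop := ∀ (a b : ℝ) (ξ : ℤ → ℝ), Env a b ξ → ∀ (y : ℤ) (v : ℝ → ℤ → ℝ), IsV ξ y v →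
  (∀ w, IsW ξ y w → ∀ t x, 0 ≤ t → w t x ≤ v t x) ∧
  (∀ h, IsLin ξ b y h → ∀ t x, 0 ≤ t → v t x ≤ h t x)

/-- (SCL) scaling of time in the linear solution. -/
def SCLStmt : Prop := ∀ (a b : ℝ) (ξ : ℤ → ℝ), Env a b ξ → ∀ (y : ℤ) (h : ℝ → ℤ → ℝ),
  IsLin ξ b y h → ∀ (θ t : ℝ) (n : ℕ), 0 < θ → θ ≤ 1 → 0 ≤ t →
    h (θ * t) (y - n) ≤ θ ^ n * Real.exp ((1 - θ) * t) * h t (y - n)

/-- (SCL') consequence of (SCL) : exponential decay backwards in time. -/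
def SCL2Stmt : Prop := ∀ (a b : ℝ) (ξ : ℤ → ℝ), Env a b ξ → ∀ (y : ℤ) (h : ℝ → ℤ → ℝ),
  IsLin ξ b y h → ∀ (r t : ℝ) (n : ℕ), 1 ≤ n → 0 ≤ r → r ≤ t → 0 < t →
    h r (y - n) ≤ Real.exp (-((n / t - 1) * (t - r))) * h t (y - n)

/-! ## The high speed regime -/

/-- (SQ) the square of `v` is dominated by the linear solution at half the time. -/
def SQStmt : Prop := ∀ (a b : ℝ) (ξ : ℤ → ℝ), Env a b ξ → ∀ (y : ℤ) (v h : ℝ → ℤ → ℝ),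
  IsV ξ y v → IsLin ξ b y h → ∀ (t : ℝ) (n : ℕ), 0 ≤ t →
    v t (y - n) ^ 2 ≤ Real.exp ((2 * b + 10) * t) * h (t / 2) (y - n)

/-- (F7) in the high speed regime `v` is at least half of `h`. -/
def F7Stmt : Prop := ∀ (a b : ℝ) (ξ : ℤ → ℝ), Env a b ξ → ∀ (y : ℤ) (v h : ℝ → ℤ → ℝ),
  IsV ξ y v → IsLin ξ b y h → ∀ (t : ℝ) (n : ℕ), 0 ≤ t → (8 * b + 30) * t ≤ n →
    h t (y - n) ≤ 2 * v t (y - n)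

/-- (UBD) hitting `y + K` is much harder than hitting `y`. -/
def UBDStmt : Prop := ∀ (a b : ℝ) (ξ : ℤ → ℝ), Env a b ξ → ∀ (y : ℤ) (K : ℕ)
  (v h : ℝ → ℤ → ℝ), IsV ξ (y + K) v → IsLin ξ b y h → ∀ (t : ℝ) (n : ℕ), 0 ≤ t → 1 ≤ n →
    (b + 3) * t ≤ n → v t (y - n) ≤ (b + 2) / 2 ^ K * h t (y - n)

/-- (H3) the linear solution does not grow too fast in the range `n ≤ ρ t`. -/
def H3Stmt : Prop := ∀ (b ρ L : ℝ), 0 < b → 0 < ρ → 0 ≤ L → ∃ (C t0 : ℝ), 0 < C ∧ L < t0 ∧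
  ∀ (a : ℝ) (ξ : ℤ → ℝ), Env a b ξ → ∀ (y : ℤ) (h : ℝ → ℤ → ℝ), IsLin ξ b y h →
  ∀ (t : ℝ) (n : ℕ), t0 ≤ t → 1 ≤ n → (n : ℝ) ≤ ρ * t → h t (y - n) ≤ C * h (t - L) (y - n)

/-- (STR) the strip inequality. -/
def StripStmt : Prop := ∀ b : ℝ, 0 < b → ∃ ρ : ℝ, 1 ≤ ρ ∧ 2 * (b + 1) ≤ ρ * Real.log 2 ∧
  ∀ L : ℝ, 0 ≤ L → ∃ K0 : ℕ,
  ∀ K : ℕ, K0 ≤ K → ∀ (a : ℝ) (ξ : ℤ → ℝ), Env a b ξ → ∀ (y : ℤ) (v' v : ℝ → ℤ → ℝ),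
  IsV ξ (y + K) v' → IsV ξ y v → ∀ (t : ℝ) (x : ℤ), 0 ≤ t → x < y →
    ρ * t ≤ ((y + K - x : ℤ) : ℝ) → ((y + K - x : ℤ) : ℝ) ≤ ρ * t + 1 →
    L ≤ t ∧ v' t x ≤ v (t - L) x

/-- (C3) hitting `y + K` takes at least the time `L` more than hitting `y`. -/
def C3Stmt : Prop := ∀ b : ℝ, 0 < b → ∃ ρ : ℝ, 1 ≤ ρ ∧ 2 * (b + 1) ≤ ρ * Real.log 2 ∧
  ∀ L : ℝ, 0 ≤ L → ∃ K0 : ℕ,
  ∀ K : ℕ, K0 ≤ K → ∀ (a : ℝ) (ξ : ℤ → ℝ), Env a b ξ → ∀ (y : ℤ) (v' v : ℝ → ℤ → ℝ),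
  IsV ξ (y + K) v' → IsV ξ y v → ∀ (t : ℝ) (x : ℤ), 0 ≤ t → x < y →
    ((y + K - x : ℤ) : ℝ) ≤ ρ * t → L ≤ t ∧ v' t x ≤ v (t - L) x

/-! ## Growth -/

/-- (G0) the basic growth lemma: with `m a ≤ (a - μ)`-type constants, `m = a * κ`,
`κ = 1 - (1 - cos (π / (2 R))) / a`. -/
def G0Stmt : Prop := ∀ (a b : ℝ) (ξ : ℤ → ℝ), Env a b ξ → ∀ (f : ℤ → ℝ) (u : ℝ → ℤ → ℝ),
  IsSol ξ univ f u → ∀ (R : ℕ) (κ : ℝ), 1 ≤ R → κ = 1 - (1 - Real.cos (Real.pi / (2 * R))) / a →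
  0 < κ → ∀ (t0 p : ℝ) (x0 : ℤ), 0 ≤ t0 → 0 < p → p ≤ 1 → p ≤ u t0 x0 →
  ∀ (t : ℝ) (j : ℤ), 0 ≤ t → |j| ≤ R → ∀ e : ℝ,
    e = Real.exp (-1) * (1 / 2) ^ R / R.factorial * p → e ≤ κ →
    κ * e * Real.exp (a * κ * t) / (κ + e * (Real.exp (a * κ * t) - 1)) *
      Real.cos (Real.pi * j / (2 * R)) ≤ u (t0 + 1 + t) (x0 + j)

/-- (G1) linear growth. -/
def G1Stmt : Prop := ∀ (a b n : ℝ), 0 < a → ∃ (s p0 : ℝ), 0 < s ∧ 0 < p0 ∧ p0 ≤ 1 / 2 ∧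
  ∀ (ξ : ℤ → ℝ), Env a b ξ → ∀ (f : ℤ → ℝ) (u : ℝ → ℤ → ℝ), IsSol ξ univ f u →
  ∀ (t0 p : ℝ) (x0 : ℤ), 0 ≤ t0 → 0 ≤ p → p ≤ p0 → p ≤ u t0 x0 → n * p ≤ u (t0 + s) x0

/-- (G2) convergence to one. -/
def G2Stmt : Prop := ∀ (a b p ε : ℝ), 0 < a → 0 < p → 0 < ε → ∃ s0 : ℝ, 0 < s0 ∧
  ∀ (ξ : ℤ → ℝ), Env a b ξ → ∀ (f : ℤ → ℝ) (u : ℝ → ℤ → ℝ), IsSol ξ univ f u →
  ∀ (t0 : ℝ) (x0 : ℤ) (s : ℝ), 0 ≤ t0 → s0 ≤ s → p ≤ u t0 x0 → 1 - ε ≤ u (t0 + s) x0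

/-- (G2B) second half of (G2): from the level `1/8` on a large box to the level `1 - ε`. -/
def G2BStmt : Prop := ∀ (a b ε : ℝ), 0 < a → 0 < ε → ∃ (s : ℝ) (R : ℕ), 0 < s ∧
  ∀ (ξ : ℤ → ℝ), Env a b ξ → ∀ (f : ℤ → ℝ) (u : ℝ → ℤ → ℝ), IsSol ξ univ f u →
  ∀ (t0 : ℝ) (x0 : ℤ), 0 ≤ t0 → (∀ j : ℤ, |j| ≤ R → 1 / 8 ≤ u t0 (x0 + j)) →
    1 - ε ≤ u (t0 + s) x0

/-- (HALF) `M (τ + s) ≥ y` with probability at least `1/2`, and maintenance of a level. -/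
def HalfStmt : Prop := ∀ (a b : ℝ), 0 < a →
  (∃ s0 : ℝ, 0 < s0 ∧ ∀ (ξ : ℤ → ℝ), Env a b ξ → ∀ (y : ℤ) (v w : ℝ → ℤ → ℝ), IsV ξ y v →
    IsW ξ y w → ∀ t x, 0 ≤ t → v t x / 2 ≤ w (t + s0) x) ∧
  (∀ η : ℝ, 0 < η → ∃ s1 : ℝ, 0 < s1 ∧ ∀ (ξ : ℤ → ℝ), Env a b ξ → ∀ (y : ℤ) (w : ℝ → ℤ → ℝ),
    IsW ξ y w → ∀ t x s, 0 ≤ t → s1 ≤ s → (1 - η) * w t x ≤ w (t + s) x)

/-- (AMP) amplification. -/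
def AmpStmt : Prop := ∀ (a b ε n : ℝ), 0 < a → 0 < ε → 0 < n → ∃ (L p0 : ℝ), 0 < L ∧ 0 < p0 ∧
  p0 ≤ 1 / 2 ∧ ∀ (ξ : ℤ → ℝ), Env a b ξ → ∀ (y : ℤ) (v w : ℝ → ℤ → ℝ), IsV ξ y v → IsW ξ y w →
  ∀ t x, L ≤ t → (p0 < v (t - L) x → 1 - ε ≤ w t x) ∧
    (v (t - L) x ≤ p0 → n * v (t - L) x ≤ w t x)

/-! ## The end of the analytic part -/

/-- (TA) tightness in analytic form. -/
def TAStmt : Prop := ∀ (a b ε : ℝ) (C : ℕ), 0 < a → 0 < b → 0 < ε → ε < 1 → ∃ K : ℤ, 0 < K ∧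
  ∀ (ξ : ℤ → ℝ), Env a b ξ → ∀ (u0 : ℤ → ℕ), IC C u0 →
  ∀ (w : ℤ → ℝ → ℤ → ℝ), (∀ y, IsW ξ y (w y)) → ∀ t : ℝ, 0 ≤ t →
    ∃ A : ℤ, noHit u0 (w A t) ≤ ε ∧ 1 - ε ≤ noHit u0 (w (A + K) t)

/-- (TLS) the tails at a fixed time. -/
def TLSStmt : Prop := ∀ (a b : ℝ) (C : ℕ) (ξ : ℤ → ℝ), Env a b ξ → ∀ (u0 : ℤ → ℕ), IC C u0 →
  ∀ (w : ℤ → ℝ → ℤ → ℝ), (∀ y, IsW ξ y (w y)) → ∀ t ε : ℝ, 0 ≤ t → 0 < ε →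
    ∃ y1 y2 : ℤ, noHit u0 (w y1 t) ≤ ε ∧ 1 - ε ≤ noHit u0 (w y2 t)

/-! ## The probabilistic part -/

/-- (PM) joint measurability. -/
def PMStmt : Prop := ∀ (ξ : ℤ → ℝ) (y : ℤ) (n : ℕ) (z : ℤ),
  MeasurableSet {q : ℝ × (List Bool → ℝ × ℝ) | Ev ξ y n q.1 z q.2}

/-- (PA) decomposition at the root. -/
def PAStmt : Prop := ∀ (ξ : ℤ → ℝ) (y : ℤ) (n : ℕ) (t : ℝ) (z : ℤ) (ω : List Bool → ℝ × ℝ),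
  Ev ξ y (n + 1) t z ω ↔
    (0 ≤ t ∧ t < (ω []).1 / (1 + ξ z) ∧ y ≤ z) ∨
    ((ω []).2 * (1 + ξ z) < ξ z ∧
      (Ev ξ y n (t - (ω []).1 / (1 + ξ z)) z (fun l => ω (l ++ [false])) ∨
        Ev ξ y n (t - (ω []).1 / (1 + ξ z)) z (fun l => ω (l ++ [true])))) ∨
    (ξ z ≤ (ω []).2 * (1 + ξ z) ∧ (ω []).2 * (1 + ξ z) < ξ z + 1 / 2 ∧
      Ev ξ y n (t - (ω []).1 / (1 + ξ z)) (z + 1) (fun l => ω (l ++ [false]))) ∨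
    (ξ z + 1 / 2 ≤ (ω []).2 * (1 + ξ z) ∧
      Ev ξ y n (t - (ω []).1 / (1 + ξ z)) (z - 1) (fun l => ω (l ++ [false])))

/-- (PB) the mark of the root and the two subtrees are independent. -/
def PBStmt : Prop :=
  Measurable (fun ω : List Bool → ℝ × ℝ =>
    (ω [], (fun l => ω (l ++ [false])), (fun l => ω (l ++ [true])))) ∧
  treeLaw.map (fun ω : List Bool → ℝ × ℝ =>
    (ω [], (fun l => ω (l ++ [false])), (fun l => ω (l ++ [true])))) =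
  markLaw.prod (treeLaw.prod treeLaw)

/-- (PROC) one tree: law of the number of generations. -/
def ProcStmt : Prop := ∀ (a b : ℝ) (ξ : ℤ → ℝ), Env a b ξ → ∀ (y z : ℤ) (n : ℕ) (t : ℝ), 0 ≤ t →
  MeasurableSet {ω : List Bool → ℝ × ℝ | Ev ξ y n t z ω} ∧
  treeLaw {ω : List Bool → ℝ × ℝ | Ev ξ y n t z ω} = ENNReal.ofReal (iter ξ univ (ind y) n t z)

/-- (PROC2) one tree. -/
def Proc2Stmt : Prop := ∀ (a b : ℝ) (ξ : ℤ → ℝ), Env a b ξ → ∀ (y : ℤ),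
  ∃ w : ℝ → ℤ → ℝ, IsW ξ y w ∧ ∀ (z : ℤ) (t : ℝ), 0 ≤ t →
  MeasurableSet {ω : List Bool → ℝ × ℝ | ∃ l : List Bool,
    IsAlive ξ (z, 0, true) ω t l ∧ y ≤ (node ξ (z, 0, true) ω l).1} ∧
  treeLaw {ω : List Bool → ℝ × ℝ | ∃ l : List Bool,
    IsAlive ξ (z, 0, true) ω t l ∧ y ≤ (node ξ (z, 0, true) ω l).1} = ENNReal.ofReal (w t z)

/-- (PRD) independent trees. -/
def PrdStmt : Prop := ∀ (u0 : ℤ → ℕ) (E : ℤ → Set (List Bool → ℝ × ℝ)) (f : ℤ → ℝ),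
  (∀ z, MeasurableSet (E z)) → (∀ z, 0 ≤ f z ∧ f z ≤ 1) →
  (∀ z, treeLaw (E z) = ENNReal.ofReal (f z)) →
  law {ω | ∀ (z : ℤ) (i : ℕ), i < u0 z → ω (z, i) ∉ E z} = ENNReal.ofReal (noHit u0 f)

/-- (FIN) the final theorem. -/
def FinStmt : Prop := ∀ (a b : ℝ) (ξ : ℤ → ℝ), Env a b ξ → ∀ (C : ℕ) (u0 : ℤ → ℕ), IC C u0 →
  Tight ξ u0

end BRW
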